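import Mathlib
import Pool.Agent.W42.Joints.Asym

set_option autoImplicit false

/-!
Sets of lines in three-space with asymptotically the maximal number of joints which are as far as
possible from the lines of every generic set of planes.
-/

namespace Pool.Agent.Results.MP_a8d5c3_co.FarFromGeneric

open Module Filter Topology

/-- Euclidean three-space. -/
abbrev E3 := EuclideanSpace ℝ (Fin 3)

/-- Affine subspaces of three-space. -/
abbrev Flat := AffineSubspace ℝ E3

/-- Affine lines. -/
def IsLine (l : Flat) : Prop := l ≠ ⊥ ∧ finrank ℝ l.direction = 1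

/-- Affine planes. -/
def IsPlane (P : Flat) : Prop := P ≠ ⊥ ∧ finrank ℝ P.direction = 2

/-- The point `p` lies on three members of `L` with linearly independent direction vectors. -/
def IsJoint (L : Set Flat) (p : E3) : Prop :=
  ∃ l : Fin 3 → Flat, (∀ i, l i ∈ L ∧ p ∈ l i) ∧
    ∃ v : Fin 3 → E3, (∀ i, v i ∈ (l i).direction) ∧ LinearIndependent ℝ v

/-- The number of joints of `L`. -/
noncomputable def numJoints (L : Set Flat) : ℕ := {p | IsJoint L p}.ncard

/-- The set of intersections of two distinct members of `H`. -/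
def linesOf (H : Set Flat) : Set Flat := {l | ∃ P ∈ H, ∃ Q ∈ H, P ≠ Q ∧ l = P ⊓ Q}

/-- `H` is a finite set of planes, no two of them parallel, no three of them with a common line,
and no point is on more than `r` of them. The sets which are called generic in the problem are
those with `General 3 H`. -/
def General (r : ℕ) (H : Set Flat) : Prop :=
  H.Finite ∧ (∀ P ∈ H, IsPlane P) ∧ (∀ P ∈ H, ∀ Q ∈ H, P ≠ Q → ¬ P.Parallel Q) ∧
    (∀ l, IsLine l → {P ∈ H | l ≤ P}.ncard ≤ 2) ∧ ∀ p : E3, {P ∈ H | p ∈ P}.ncard ≤ r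

/-- For every function `g` with `g m = o(m)` there are numbers `m_k → ∞` and sets `L k` of
`n_k = m_k choose 2` lines with `(√2 / 3 + o(1)) n_k ^ (3 / 2)` joints, such that
`|L k ∆ linesOf H| ≥ (1 - o(1)) n_k` for all finite sets `H` of planes, no two parallel and no three
with a common line, which have at most `g (m_k)` members through each point. For `g = 3` (constant)
these `H` are the generic sets, and this is the negated form of the question, for every constant
`c < 1` and all large `k`. -/
theorem result (g : ℕ → ℕ) (hg : Tendsto (fun m : ℕ => (g m : ℝ) / m) atTop (𝓝 0)) :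
    ∃ (m : ℕ → ℕ) (L : ℕ → Set Flat), Tendsto m atTop atTop ∧
      (∀ k, (L k).Finite ∧ (∀ l ∈ L k, IsLine l) ∧ (L k).ncard = (m k).choose 2) ∧
      Tendsto (fun k => (numJoints (L k) : ℝ) / ((L k).ncard : ℝ) ^ (3 / 2 : ℝ)) atTop
        (𝓝 (√2 / 3)) ∧
      ∀ ε : ℝ, 0 < ε → ∀ᶠ k in atTop, ∀ H : Set Flat, General (g (m k)) H →
        (1 - ε) * ((L k).ncard : ℝ) ≤ ((symmDiff (L k) (linesOf H)).ncard : ℝ) := by
  obtain ⟨m, L, h1, h2, h3, h4⟩ := Pool.Agent.W42.Joints.main g hg
  refine ⟨m, L, h1, h2, h3, ?_⟩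
  intro ε hε
  filter_upwards [h4 ε hε] with k hk H hH
  obtain ⟨hfin, hpl, hpar, hl, hr⟩ := hH
  have e : (hfin.toFinset : Set Flat) = H := hfin.coe_toFinset
  have := hk hfin.toFinset (fun P hP => hpl P (hfin.mem_toFinset.1 hP))
    (fun P hP Q hQ hne hdir => hpar P (hfin.mem_toFinset.1 hP) Q (hfin.mem_toFinset.1 hQ) hne
      (AffineSubspace.parallel_iff_direction_eq_and_eq_bot_iff_eq_bot.2
        ⟨hdir, iff_of_false (hpl P (hfin.mem_toFinset.1 hP)).1
          (hpl Q (hfin.mem_toFinset.1 hQ)).1⟩))
    (by rw [e]; exact hl) (by rw [e]; exact hr)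
  rw [e] at this
  exact this

end Pool.Agent.Results.MP_a8d5c3_co.FarFromGeneric
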